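import Pool.Agent.R345.IYFin
import Pool.Agent.R482.ST.Star
import Pool.Agent.Results.MP_321647_nt.SparseExceptions

set_option autoImplicit false

/-!
# Class groups of ALL real quadratic fields in windows: small primes generate, up to a very small index

The starting result `SparseExceptions` shows that, for all but `O(X^(2/a+ε))` of the squarefree `d ≤ X`, the primes
up to `(log d)^a` generate a subgroup of index at most `d^(1/(2a)+ε)` of the class group of `ℚ(√d)`. So the field has class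
number at most `d^(1/(2a)+ε)` as soon as all its primes up to `(log d)^a` are principal. Here there are no exceptions.

Let `f_n`, `n = 0, 1, 2, …`, be positive functions on `(x₀, ∞)`, `x₀ ≥ 0`, such that `f_n(x) / x` is nondecreasing, and such
that the sequence `f_n(x)` has exponent of convergence at most `τ` for each `x > x₀`: for instance `f_n(x) = x ^ (v_n)` for
exponents `v_n ≥ 1` (`τ = 0`; all powers, the powers `x ^ (3 ^ n)` of Mills, …), the orbits `f_n(x) = g (g (⋯ g (x)))` of any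
map `g` with `g(x) > x` and `g(x) / x` nondecreasing (`τ = 0`; for instance of `x² + c`), and `f_n(x) = v_n x`.
Let `θ < 1`. For all `x > x₀` outside a set of Hausdorff dimension at most `(2 / a + τ) / (1 - θ)` and all `ε` and `c`, for
all but finitely many `n`, EVERY squarefree `d` in the window `|d - f_n(x)| ≤ c f_n(x) ^ θ` has these properties.
-/

namespace Pool.Agent.Results.MP_321647_nt.WindowsWithoutExceptions

open Finset NumberField
open scoped Classical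
open SparseExceptions (Reach Gen Good)

/-- the functions `f n` are positive on `(a, ∞)`, `a ≥ 0`, and `f n x / x` is nondecreasing there -/
def Starshaped (a : ℝ) (f : ℕ → ℝ → ℝ) : Prop :=
  0 ≤ a ∧ ∀ n : ℕ, ∀ x y : ℝ, a < x → x ≤ y → 0 < f n x ∧ f n x / x ≤ f n y / y

/-- for each `x > a` the exponent of convergence of the sequence `f n x` is at most `τ` -/
def ExpLe (a : ℝ) (f : ℕ → ℝ → ℝ) (τ : ℝ) : Prop :=
  ∀ x : ℝ, a < x → ∀ t : ℝ, τ < t → Summable (fun n : ℕ => (f n x) ^ (-t))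

lemma good_mono {a ε ε' : ℝ} (h : ε ≤ ε') {d : ℕ} (hd : 1 ≤ d) (hg : Good a ε d) : Good a ε' d := by
  intro K _ _ hK hx
  obtain ⟨h1, h2, h3⟩ := hg K hK hx
  have hd1 : (1 : ℝ) ≤ (d : ℝ) := by exact_mod_cast hd
  have hp : (d : ℝ) ^ (1 / (2 * a) + ε) ≤ (d : ℝ) ^ (1 / (2 * a) + ε') :=
    Real.rpow_le_rpow_of_exponent_le hd1 (by linarith)
  exact ⟨h1.trans (mul_le_mul_of_nonneg_right hp (Nat.cast_nonneg _)), h2.trans hp,
    fun hP => (h3 hP).trans hp⟩

/-- the exceptional radicands, in all the range -/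
lemma count (a : ℝ) (ha : 2 < a) (ε₀ : ℝ) (hε₀ : 0 < ε₀) (ε : ℝ) (hε : 0 < ε) : ∃ C : ℝ, ∀ X : ℕ, 1 ≤ X →
    (((Ioc 0 X).filter (fun t => t ∈ {d : ℕ | Squarefree d ∧ ¬ Good a ε₀ d})).card : ℝ) ≤
      C * (X : ℝ) ^ (2 / a + ε) := by
  obtain ⟨C, hC, h⟩ := SparseExceptions.result a (min ε ε₀) ha (lt_min hε hε₀)
  refine ⟨C + 1, fun X hX => ?_⟩
  have hX1 : (1 : ℝ) ≤ (X : ℝ) := by exact_mod_cast hX
  have ha0 : 0 < a := by linarith
  have hsub : (Ioc 0 X).filter (fun t => t ∈ {d : ℕ | Squarefree d ∧ ¬ Good a ε₀ d}) ⊆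
      insert 1 ((Finset.Icc 2 X).filter (fun d => Squarefree d ∧ ¬ Good a (min ε ε₀) d)) := by
    intro d hd
    rw [Finset.mem_filter, Finset.mem_Ioc] at hd
    obtain ⟨⟨hd0, hdX⟩, hd1, hd2⟩ := hd
    rw [Finset.mem_insert, Finset.mem_filter, Finset.mem_Icc]
    rcases Nat.lt_or_ge d 2 with h2 | h2
    · left
      omega
    · right
      exact ⟨⟨h2, hdX⟩, hd1, fun hg => hd2 (good_mono (min_le_right _ _) (by omega) hg)⟩
  have h1 := (Finset.card_le_card hsub).trans (Finset.card_insert_le _ _)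
  have h2 : (((Ioc 0 X).filter (fun t => t ∈ {d : ℕ | Squarefree d ∧ ¬ Good a ε₀ d})).card : ℝ) ≤
      (((Finset.Icc 2 X).filter (fun d => Squarefree d ∧ ¬ Good a (min ε ε₀) d)).card : ℝ) + 1 := by
    exact_mod_cast h1
  have h3 : (X : ℝ) ^ (2 / a + min ε ε₀) ≤ (X : ℝ) ^ (2 / a + ε) :=
    Real.rpow_le_rpow_of_exponent_le hX1 (by linarith [min_le_left ε ε₀])
  have h4 : (1 : ℝ) ≤ (X : ℝ) ^ (2 / a + ε) := Real.one_le_rpow hX1 (by positivity)
  have h5 := h X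
  nlinarith [mul_le_mul_of_nonneg_left h3 hC.le]

/-- **Theorem.** Let `f` be starshaped functions on `(x₀, ∞)` of exponent of convergence at most `τ ≥ 0`, `θ < 1` and `a > 2`.
There is a set `E` of Hausdorff dimension at most `(2 / a + τ) / (1 - θ)` such that for each `x > x₀` outside `E` and all
`ε > 0` and `c`, for all but finitely many `n`, EVERY squarefree `d` with `|d - f_n(x)| ≤ c f_n(x) ^ θ` has the property
`Good a ε d` of the starting result `SparseExceptions`. The functions `v_n x`, `v_n > 0`, are starshaped on `(0, ∞)`, of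
exponent `τ` if `v` has exponent of convergence at most `τ`; the functions `x ^ (v_n)`, `v_n ≥ 1`, are starshaped on `(1, ∞)`,
of exponent `0` if the sums of `exp (-t v_n)` converge for `t > 0`; and the iterates of a map `g` with `g(x) > x` for `x > x₀`
and `g(x) / x` nondecreasing are starshaped on `(x₀, ∞)`, of exponent `0`. -/
theorem result :
    (∀ (x₀ : ℝ) (f : ℕ → ℝ → ℝ) (τ θ a : ℝ), Starshaped x₀ f → 0 ≤ τ → ExpLe x₀ f τ → θ < 1 → 2 < a →
      ∃ E : Set ℝ, dimH E ≤ ENNReal.ofReal ((2 / a + τ) / (1 - θ)) ∧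
        ∀ x : ℝ, x₀ < x → x ∉ E → ∀ ε c : ℝ, 0 < ε → ∃ n₀ : ℕ, ∀ n : ℕ, n₀ ≤ n →
          ∀ d : ℕ, Squarefree d → |(d : ℝ) - f n x| ≤ c * (f n x) ^ θ → Good a ε d) ∧
    (∀ (v : ℕ → ℝ) (τ : ℝ), (∀ n, 0 < v n) → (∀ t : ℝ, τ < t → Summable (fun n : ℕ => (v n) ^ (-t))) →
      Starshaped 0 (fun n x => v n * x) ∧ ExpLe 0 (fun n x => v n * x) τ) ∧
    (∀ v : ℕ → ℝ, (∀ n, 1 ≤ v n) → (∀ t : ℝ, 0 < t → Summable fun n : ℕ => Real.exp (-(t * v n))) →
      Starshaped 1 (fun n x => x ^ (v n)) ∧ ExpLe 1 (fun n x => x ^ (v n)) 0) ∧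
    (∀ (x₀ : ℝ) (g : ℝ → ℝ), 0 ≤ x₀ → (∀ x y : ℝ, x₀ < x → x ≤ y → g x / x ≤ g y / y) →
      (∀ x : ℝ, x₀ < x → x < g x) →
      Starshaped x₀ (fun n x => g^[n] x) ∧ ExpLe x₀ (fun n x => g^[n] x) 0) := by
  refine ⟨fun x₀ f τ θ a hf hτ hE hθ1 ha => ?_, Pool.Agent.R482.ST.ex_mul, Pool.Agent.R482.ST.ex_pow,
    Pool.Agent.R482.ST.ex_orbit⟩
  have ha0 : 0 < a := by linarith
  have hall : ∀ k : ℕ, ∃ E : Set ℝ, dimH E ≤ ENNReal.ofReal ((2 / a + τ) / (1 - θ)) ∧
      ∀ x : ℝ, x₀ < x → x ∉ E → ∀ c : ℝ, ∃ n₀ : ℕ, ∀ n : ℕ, n₀ ≤ n → ∀ m : ℕ,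
        |(m : ℝ) - f n x| ≤ c * (f n x) ^ θ →
          0 < m ∧ m ∉ {d : ℕ | Squarefree d ∧ ¬ Good a (1 / ((k : ℝ) + 1)) d} := fun k =>
    Pool.Agent.R482.ST.win_nat {d : ℕ | Squarefree d ∧ ¬ Good a (1 / ((k : ℝ) + 1)) d} hf hτ hE
      (s := 2 / a) (by positivity) hθ1 (fun ε hε => by
        obtain ⟨C, hC⟩ := count a ha (1 / ((k : ℝ) + 1)) (by positivity) ε hε
        refine ⟨C, fun X hX => ?_⟩
        convert hC X hX)
  choose E hE1 hE2 using hall
  refine ⟨⋃ k, E k, ?_, fun x hx hxE ε c hε => ?_⟩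
  · rw [dimH_iUnion]
    exact iSup_le hE1
  · obtain ⟨k, hk⟩ := exists_nat_one_div_lt hε
    obtain ⟨n₀, hn⟩ := hE2 k x hx (fun h => hxE (Set.mem_iUnion.2 ⟨k, h⟩)) c
    refine ⟨n₀, fun n hn1 d hd hw => ?_⟩
    obtain ⟨h0, h1⟩ := hn n hn1 d hw
    have h2 : Good a (1 / ((k : ℝ) + 1)) d := by
      by_contra hcon
      exact h1 ⟨hd, hcon⟩
    exact good_mono hk.le h0 h2

end Pool.Agent.Results.MP_321647_nt.WindowsWithoutExceptions
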